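import Pool.Agent.Helper38.VF.Goals2

/-!
# VTF-TR1 (second seat): the trace property
-/

set_option autoImplicit false

namespace Pool.Agent.Helper15.VF2

open Pool.Agent.Helper38.VF

universe u

noncomputable def dl {X : Type u} (x : X) : L2 X := by
  classical
  exact lp.single 2 x (1 : ℝ)

theorem dl_same {X : Type u} (x : X) : dl x x = 1 := by
  classical
  unfold dl
  simp

theorem dl_ne {X : Type u} {x y : X} (h : y ≠ x) : dl x y = 0 := by
  classical
  unfold dl
  simp [h]

theorem single_eq {X : Type u} [DecidableEq X] (x : X) : (lp.single 2 x (1 : ℝ) : L2 X) = dl x := by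
  apply lp.ext
  funext y
  by_cases h : y = x
  · subst h
    rw [dl_same]
    simp
  · rw [dl_ne h]
    simp [h]

theorem hasSum_dl {X : Type u} (f : L2 X) : HasSum (fun y => f y • dl y) f := by
  classical
  have h := lp.hasSum_single (p := 2) (by norm_num) f
  have e : (fun y => f y • dl y) = fun y => (lp.single 2 y (f y) : L2 X) := by
    funext y
    rw [← single_eq y, ← lp.single_smul]
    simp
  rw [e]
  exact h

theorem inner_dl {X : Type u} (z : X) (g : L2 X) : inner ℝ (dl z) g = g z := by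
  classical
  unfold dl
  rw [lp.inner_single_left]
  simp

theorem apply_hasSum {X Y : Type u} (T : L2 X →L[ℝ] L2 Y) (f : L2 X) (z : Y) :
    HasSum (fun y => f y * (T (dl y)) z) ((T f) z) := by
  have h := (hasSum_dl f).mapL ((innerSL ℝ (dl z)).comp T)
  have e : (fun y => f y * (T (dl y)) z) =
      fun y => ((innerSL ℝ (dl z)).comp T) (f y • dl y) := by
    funext y
    rw [map_smul]
    simp only [ContinuousLinearMap.comp_apply, innerSL_apply_apply, inner_dl, smul_eq_mul]
  rw [e]
  have e2 : (T f) z = ((innerSL ℝ (dl z)).comp T) f := by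
    simp only [ContinuousLinearMap.comp_apply, innerSL_apply_apply, inner_dl]
  rw [e2]
  exact h

theorem tr'_eq {A : Type u} [Group A] {n : ℕ} (Q : L2 (Fin n × A) →L[ℝ] L2 (Fin n × A)) :
    tr' Q = ∑ j : Fin n, (Q (dl (j, (1 : A)))) (j, 1) := by
  unfold tr'
  simp only [single_eq]

theorem eqv_dl {A : Type u} [Group A] {m n : ℕ} {C : L2 (Fin m × A) →L[ℝ] L2 (Fin n × A)}
    (hC : Eqv C) (i : Fin n) (a : A) (j : Fin m) (g : A) :
    C (dl (j, g)) (i, a) = C (dl (j, 1)) (i, a * g⁻¹) := by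
  refine hC g⁻¹ (dl (j, 1)) (dl (j, g)) ?_ (i, a)
  rintro ⟨j', b⟩
  by_cases h : ((j', b) : Fin m × A) = (j, g)
  · rw [h, dl_same]
    simp only [mul_inv_cancel, dl_same]
  · rw [dl_ne h, dl_ne]
    intro h2
    apply h
    rw [Prod.mk.injEq] at h2 ⊢
    exact ⟨h2.1, mul_inv_eq_one.mp h2.2⟩

theorem TR1 : Tr1Stmt.{u} := by
  intro A _ m n P Q hP hQ
  rw [tr'_eq, tr'_eq]
  -- the common terms
  let F : Fin n → Fin m → A → ℝ := fun j i g => Q (dl (j, 1)) (i, g) * P (dl (i, 1)) (j, g⁻¹)
  have h1 : ∀ j : Fin n, HasSum (fun y : Fin m × A => F j y.1 y.2)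
      ((P.comp Q) (dl (j, (1 : A))) (j, 1)) := by
    intro j
    have h := apply_hasSum P (Q (dl (j, (1 : A)))) (j, (1 : A))
    have e : (fun y : Fin m × A => F j y.1 y.2) =
        fun y => Q (dl (j, (1 : A))) y * (P (dl y)) (j, 1) := by
      funext ⟨i, g⟩
      simp only [F]
      rw [eqv_dl hP j 1 i g, one_mul]
    rw [e]
    exact h
  have h2 : ∀ i : Fin m, HasSum (fun y : Fin n × A => F y.1 i y.2)
      ((Q.comp P) (dl (i, (1 : A))) (i, 1)) := by
    intro i
    have h := apply_hasSum Q (P (dl (i, (1 : A)))) (i, (1 : A))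
    let E : Fin n × A ≃ Fin n × A := (Equiv.refl (Fin n)).prodCongr (Equiv.inv A)
    have h' := (E.hasSum_iff).mpr h
    have e : (fun y : Fin n × A => F y.1 i y.2) =
        (fun y => P (dl (i, (1 : A))) y * (Q (dl y)) (i, 1)) ∘ E := by
      funext ⟨j, g⟩
      simp only [F, E, Function.comp, Equiv.prodCongr_apply, Prod.map, Equiv.refl_apply,
        Equiv.inv_apply]
      rw [eqv_dl hQ i 1 j g⁻¹, one_mul, inv_inv, mul_comm]
    rw [e]
    exact h'
  have s1 : ∀ j : Fin n, (P.comp Q) (dl (j, (1 : A))) (j, 1) = ∑ i : Fin m, ∑' g : A, F j i g := by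
    intro j
    rw [← (h1 j).tsum_eq, (h1 j).summable.tsum_prod, tsum_fintype]
  have s2 : ∀ i : Fin m, (Q.comp P) (dl (i, (1 : A))) (i, 1) = ∑ j : Fin n, ∑' g : A, F j i g := by
    intro i
    rw [← (h2 i).tsum_eq, (h2 i).summable.tsum_prod, tsum_fintype]
  rw [Finset.sum_congr rfl fun j _ => s1 j, Finset.sum_congr rfl fun i _ => s2 i,
    Finset.sum_comm]

end Pool.Agent.Helper15.VF2
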